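import Pool.Agent.H66.DownDefs
import Pool.Agent.H38.NP.Api

/-! Down-posets are recognised in polynomial time. -/

namespace Pool.Agent.Results.MP_dd7d0c_lc.InP

open Pool.Agent.H38.NP Pool.Agent.H66.Sharp Pool.Agent.H66.Down

section
variable {α : Type} {r : α → α → Prop}

def DF (r : α → α → Prop) (f : α → α) : Prop :=
  (∀ c, r (f c) c) ∧ (∀ c d, r c d → r (f c) (f d)) ∧ ∀ c d, r c (f d) → f c = c

def Rule (r : α → α → Prop) (F : Set α) : Set α :=
  {y | ∃ x, ∀ z, r z x → (∀ w ∈ F, r w x → r w z) → r y z}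

def Chk (r : α → α → Prop) (F : Set α) (c d : α) : Prop :=
  (∀ x, ∃ j ∈ F, r j x ∧ ∀ w ∈ F, r w x → r w j) ∧ ∀ w ∈ F, r w d → r w c

theorem rule_infl {F : Set α} (hr : ∀ x, r x x) : F ⊆ Rule r F :=
  fun y hy => ⟨y, fun _ _ h => h y hy (hr y)⟩

theorem rule_mono {F G : Set α} (h : F ⊆ G) : Rule r F ⊆ Rule r G :=
  fun _ ⟨x, hx⟩ => ⟨x, fun z h1 h2 => hx z h1 fun w hw => h2 w (h hw)⟩

theorem main [Finite α] (hr : ∀ x, r x x) (ha : ∀ x y, r x y → r y x → x = y)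
    (ht : ∀ x y z, r x y → r y z → r x z) (F : α → Set α) (h0 : ∀ c, c ∈ F c)
    (h1 : ∀ c, Rule r (F c) ⊆ F c) (h2 : ∀ c (G : Set α), c ∈ G → Rule r G ⊆ G → F c ⊆ G) :
    (∀ c d, r c d → ∃ f, DF r f ∧ f d = c) ↔ ∀ c d, r c d → Chk r (F c) c d := by
  constructor
  · intro H c d hcd
    constructor
    · intro x
      letI : PartialOrder α :=
        { le := r, le_refl := hr, le_trans := ht, le_antisymm := ha }
      obtain ⟨j, hj⟩ := Set.Finite.exists_minimal (s := {z | r z x ∧ ∀ w ∈ F c, r w x → r w z})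
        (Set.toFinite _) ⟨x, hr x, fun _ _ h => h⟩
      refine ⟨j, h1 c ⟨x, fun z z1 z2 => ?_⟩, hj.1.1, hj.1.2⟩
      obtain ⟨f, hf, e⟩ := H j x hj.1.1
      have m1 : r (f z) j := e ▸ hf.2.1 _ _ z1
      have m2 : r j (f z) := hj.2 ⟨ht _ _ _ m1 hj.1.1, fun w hw hx => by
        have := hf.2.2 w x (e ▸ hj.1.2 w hw hx)
        exact this ▸ hf.2.1 _ _ (z2 w hw hx)⟩ m1
      exact ht _ _ _ m2 (hf.1 z)
    · obtain ⟨f, hf, e⟩ := H c d hcd
      intro w hw hd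
      have : F c ⊆ {w | f w = w} := h2 c _ (hf.2.2 c d (e ▸ hr c)) fun y ⟨x, hx⟩ =>
        hf.2.2 y x (hx _ (hf.1 x) fun w (hw : f w = w) hx => hw ▸ hf.2.1 _ _ hx)
      rw [← e, ← (this hw : f w = w)]
      exact hf.2.1 _ _ hd
  · intro H c d hcd
    obtain ⟨k1, k2⟩ := H c d hcd
    choose f f1 f2 f3 using k1
    have dn : ∀ y ∈ F c, ∀ y', r y' y → y' ∈ F c := fun y hy y' h =>
      h1 c ⟨y, fun z _ z2 => ht _ _ _ h (z2 y hy (hr y))⟩
    refine ⟨f, ⟨f2, fun a b h => f3 b _ (f1 a) (ht _ _ _ (f2 a) h), fun a b h =>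
      ha _ _ (f2 a) (f3 a a (dn _ (f1 b) _ h) (hr a))⟩, ha _ _ (k2 _ (f1 d) (f2 d))
      (f3 d c (h0 c) hcd)⟩

end

theorem down_iff {I : ℕ × List (ℕ × ℕ)} (h : IsPoset I) : IsDown I ↔
    ∀ c d, relOf I c d → ∃ f, DF (relOf I) f ∧ f d = c := by
  obtain ⟨-, hr, ha, ht⟩ := h
  constructor
  · rintro ⟨S, C, mul, one, act, e, i1, i2, i3, i4, i5, i6, H⟩ c d hcd
    obtain ⟨s, hs⟩ := (H c d).1 hcd
    refine ⟨fun x => e.symm (act (e x) s), ⟨fun x => (H _ _).2 ⟨s, by simp⟩, fun x y hxy => ?_,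
      fun x y hxy => ?_⟩, by simp [hs]⟩
    · obtain ⟨t, ht⟩ := (H _ _).1 hxy
      exact (H _ _).2 ⟨t, by simp only [Equiv.apply_symm_apply]; rw [← ht, ← i5, ← i5, i2]⟩
    · obtain ⟨t, ht⟩ := (H _ _).1 hxy
      simp only [Equiv.apply_symm_apply] at ht
      rw [Equiv.symm_apply_eq, ← ht, ← i5, ← i5, ← i5, i2 t s, ← i3, i1]
  · intro H
    have key : ∀ f g, DF (relOf I) f → DF (relOf I) g → ∀ x, relOf I (f (g x)) (g (f x)) := by
      intro f g hf hg x
      have := hg.2.2 _ _ (hf.1 (g x))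
      rw [← this]
      exact hg.2.1 _ _ (hf.2.1 _ _ (hg.1 x))
    refine ⟨{f // DF (relOf I) f}, Fin I.1, fun f g => ⟨g.1 ∘ f.1, fun x =>
      ht _ _ _ (g.2.1 _) (f.2.1 _), fun x y h => g.2.2.1 _ _ (f.2.2.1 _ _ h), fun x y h => ?_⟩,
      ⟨id, hr, fun _ _ h => h, fun _ _ _ => rfl⟩, fun x f => f.1 x, Equiv.refl _, fun f => ?_,
      fun f g => ?_, fun _ _ _ => rfl, fun _ => rfl, fun _ _ _ => rfl, fun _ => rfl,
      fun x y => ⟨fun h => ?_, ?_⟩⟩
    · have h1 := f.2.2.2 x y (ht _ _ _ h (g.2.1 _))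
      have h2 := g.2.2.2 x _ h
      simp [h1, h2]
    · exact Subtype.ext (funext fun x => f.2.2.2 _ x (hr _))
    · exact Subtype.ext (funext fun x => ha _ _ (key _ _ g.2 f.2 x) (key _ _ f.2 g.2 x))
    · obtain ⟨f, hf, e⟩ := H x y h
      exact ⟨⟨f, hf⟩, e⟩
    · rintro ⟨f, e⟩
      have e' : f.1 y = x := e
      exact e' ▸ f.2.1 y

def rule (I : ℕ × List (ℕ × ℕ)) (F : List ℕ) : List ℕ :=
  (List.range I.1).filter fun y => (List.range I.1).any fun x => (List.range I.1).all fun z =>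
    !decide ((z, x) ∈ I.2) || (F.any fun w => decide ((w, x) ∈ I.2) && !decide ((w, z) ∈ I.2)) ||
      decide ((y, z) ∈ I.2)

def chk (I : ℕ × List (ℕ × ℕ)) (F : List ℕ) (c d : ℕ) : Bool :=
  ((List.range I.1).all fun x => F.any fun j => decide ((j, x) ∈ I.2) &&
    F.all fun w => !decide ((w, x) ∈ I.2) || decide ((w, j) ∈ I.2)) &&
  F.all fun w => !decide ((w, d) ∈ I.2) || decide ((w, c) ∈ I.2)

def alg (I : ℕ × List (ℕ × ℕ)) : Bool := I.2.all fun p => chk I ((rule I)^[I.1] [p.1]) p.1 p.2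

theorem pt_alg : PT alg := by
  have h1 : PT fun p : ((ℕ × List (ℕ × ℕ)) × ℕ × ℕ) × List ℕ => rule p.1.1 p.2 := by
    unfold rule; fun_prop
  have h2 : PT fun p : (ℕ × List (ℕ × ℕ)) × ℕ × ℕ => (rule p.1)^[p.1.1] [p.2.1] := by
    refine PT.iterate (step := fun (p : (ℕ × List (ℕ × ℕ)) × ℕ × ℕ) F => rule p.1 F) h1
      (by fun_prop) (by fun_prop) (PT.pb (f := fun p : (ℕ × List (ℕ × ℕ)) × ℕ × ℕ =>
        p.2.1 :: List.range p.1.1) (by fun_prop)) fun p i _ => sz_le_of_sublist ?_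
    cases i with
    | zero => simp
    | succ i =>
      rw [Function.iterate_succ_apply']
      exact List.filter_sublist.trans (List.sublist_cons_self _ _)
  have h3 : PT fun p : (ℕ × List (ℕ × ℕ)) × List ℕ × ℕ × ℕ => chk p.1 p.2.1 p.2.2.1 p.2.2.2 := by
    unfold chk; fun_prop
  exact PT.all (f := fun I (p : ℕ × ℕ) => chk I ((rule I)^[I.1] [p.1]) p.1 p.2)
    (h3.comp (g := fun p : (ℕ × List (ℕ × ℕ)) × ℕ × ℕ =>
      (p.1, (rule p.1)^[p.1.1] [p.2.1], p.2.1, p.2.2)) (PT.mk (by fun_prop) (PT.mk h2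
        (by fun_prop)))) (by fun_prop)

def toS (n : ℕ) (F : List ℕ) : Set (Fin n) := {x | x.val ∈ F}

theorem all_mem {n : ℕ} {F : List ℕ} (h : ∀ w ∈ F, w < n) (P : ℕ → Prop) :
    (∀ w ∈ F, P w) ↔ ∀ w ∈ toS n F, P w.val :=
  ⟨fun H w hw => H _ hw, fun H w hw => H ⟨w, h w hw⟩ hw⟩

theorem rule_lt {I F} : ∀ w ∈ rule I F, w < I.1 := fun w hw => by
  simpa using (List.mem_filter.1 hw).1

theorem rule_eq {I F} (h : ∀ w ∈ F, w < I.1) :
    toS I.1 (rule I F) = Rule (relOf I) (toS I.1 F) := by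
  ext y
  simp only [toS, rule, Rule, Set.mem_setOf_eq, List.mem_filter, List.mem_range, y.2, true_and,
    List.any_eq_true, List.all_eq_true, Bool.or_eq_true, Bool.not_eq_true', decide_eq_false_iff_not,
    decide_eq_true_eq, Bool.and_eq_true, relOf]
  constructor
  · rintro ⟨x, hx, H⟩
    refine ⟨⟨x, hx⟩, fun z z1 z2 => ?_⟩
    rcases H z z.2 with (k | ⟨w, hw, k1, k2⟩) | k
    · exact absurd z1 k
    · exact absurd (z2 ⟨w, h w hw⟩ hw k1) k2
    · exact k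
  · rintro ⟨x, H⟩
    refine ⟨x, x.2, fun z hz => ?_⟩
    by_contra hn
    push Not at hn
    exact hn.2 (H ⟨z, hz⟩ hn.1.1 fun w hw k => hn.1.2 w hw k)

theorem chk_eq {I F} (h : ∀ w ∈ F, w < I.1) (c d : Fin I.1) :
    chk I F c d = true ↔ Chk (relOf I) (toS I.1 F) c d := by
  simp only [chk, Chk, List.mem_range, List.any_eq_true, List.all_eq_true, Bool.or_eq_true,
    Bool.not_eq_true', decide_eq_false_iff_not, decide_eq_true_eq, Bool.and_eq_true, relOf,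
    ← imp_iff_not_or]
  refine and_congr ⟨fun H x => ?_, fun H x hx => ?_⟩ (all_mem h _)
  · obtain ⟨j, j1, j2, j3⟩ := H x x.2
    exact ⟨⟨j, h j j1⟩, j1, j2, fun w hw => j3 w hw⟩
  · obtain ⟨j, j1, j2, j3⟩ := H ⟨x, hx⟩
    exact ⟨j, j1, j2, fun w hw => j3 ⟨w, h w hw⟩ hw⟩

theorem result : InPOn IsPoset IsDown := by
  refine inPOn_of_pt alg pt_alg fun I hI => ?_
  have lt : ∀ (c : Fin I.1) i, ∀ w ∈ (rule I)^[i] [c.val], w < I.1 := by
    intro c i
    cases i with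
    | zero => simp
    | succ i => rw [Function.iterate_succ_apply']; exact rule_lt
  let G : Fin I.1 → ℕ → Set (Fin I.1) := fun c i => toS I.1 ((rule I)^[i] [c.val])
  have hG : ∀ c i, G c (i + 1) = Rule (relOf I) (G c i) := fun c i => by
    simp only [G, Function.iterate_succ_apply', rule_eq (lt c i)]
  have mono : ∀ c i, G c i ⊆ G c (i + 1) := fun c i => hG c i ▸ rule_infl hI.2.1
  have mem : ∀ c i, c ∈ G c i := fun c i => by
    induction i with
    | zero => simp [G, toS]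
    | succ i ih => exact mono c i ih
  have stab : ∀ c i, G c i = G c (i + 1) ∨ i + 1 ≤ (G c (i + 1)).ncard := by
    intro c i
    induction i with
    | zero => exact Or.inr ((Set.ncard_pos (Set.toFinite _)).2 ⟨c, mem c 1⟩)
    | succ i ih =>
      rcases ih with ih | ih
      · left; rw [hG c (i + 1), ← ih, ← hG, ← ih]
      · by_cases h : G c (i + 1) = G c (i + 2)
        · exact Or.inl h
        · exact Or.inr (lt_of_le_of_lt ih
            (Set.ncard_lt_ncard ((mono c _).ssubset_of_ne h) (Set.toFinite _)))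
  rw [down_iff hI, main hI.2.1 hI.2.2.1 hI.2.2.2 (fun c => G c I.1) (fun c => mem c _)
    (fun c => ?_) (fun c S h1 h2 => ?_)]
  · simp only [alg, List.all_eq_true]
    refine ⟨fun H p hp => ?_, fun H c d h => (chk_eq (lt c _) c d).1 (H _ h)⟩
    exact (chk_eq (lt ⟨p.1, (hI.1 p hp).1⟩ _) ⟨p.1, (hI.1 p hp).1⟩ ⟨p.2, (hI.1 p hp).2⟩).2
      (H _ _ hp)
  · rw [← hG]
    rcases stab c I.1 with h | h
    · exact h.ge
    · have := Set.ncard_le_ncard (Set.subset_univ (G c (I.1 + 1))) (Set.toFinite _)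
      rw [Set.ncard_univ, Nat.card_eq_fintype_card, Fintype.card_fin] at this
      omega
  · suffices ∀ i, G c i ⊆ S from this _
    intro i
    induction i with
    | zero => intro x hx; have : x = c := Fin.ext (by simpa [G, toS] using hx); exact this ▸ h1
    | succ i ih => rw [hG]; exact (rule_mono ih).trans h2

end Pool.Agent.Results.MP_dd7d0c_lc.InP
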